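import Pool.Agent.Helper27.SqFinal

/-!
# Classification of the square-only triangles (question of Erdős)

`Pool.Agent.Helper27.SqDefs` contains the definitions `tri`, `side`, `CanCut`, `SquareOnly`, and
`Pool.Agent.Helper27.SqExc` the explicit list `Exc` of exceptional triples of side lengths and
`Exceptional`.
-/

namespace Pool.Agent.Results.MP_a03157_co.Classification

open Pool.Agent.Helper27.Sq

/-- A non-degenerate triangle in the Euclidean plane is square-only if and only if it is scalene and
its side lengths are not proportional (in any order) to those of one of the explicitly listed
exceptional triangles. -/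
theorem result :
    ∀ T : Fin 3 → EuclideanSpace ℝ (Fin 2), AffineIndependent ℝ T →
      (SquareOnly T ↔
        (side T 0 ≠ side T 1 ∧ side T 1 ≠ side T 2 ∧ side T 2 ≠ side T 0) ∧ ¬ Exceptional T) :=
  classification

end Pool.Agent.Results.MP_a03157_co.Classification
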